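import Mathlib
import Pool.Agent.Lib.MP_f651fd_an.Main

/-!
No injective compact operator is the L-asymptotic limit of a power bounded operator on an
infinite-dimensional complex Hilbert space. The bounded complex sequences are modelled as the
bounded continuous functions on the discrete space of natural numbers.
-/

namespace Pool.Agent.Variants.MP_f651fd_an.NoInjectiveCompact

/-- A Banach limit: a positive, shift-invariant, normalised linear functional on bounded
sequences. -/
def IsBanachLimit (L : BoundedContinuousFunction ℕ ℂ →ₗ[ℂ] ℂ) : Prop :=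
  (∀ u : BoundedContinuousFunction ℕ ℂ, (∀ n, 0 ≤ (u n).re ∧ (u n).im = 0) →
    0 ≤ (L u).re ∧ (L u).im = 0) ∧
  (∀ u v : BoundedContinuousFunction ℕ ℂ, (∀ n, v n = u (n + 1)) → L v = L u) ∧
  (∀ u : BoundedContinuousFunction ℕ ℂ, (∀ n, u n = 1) → L u = 1)

/-- The operator A is the L-asymptotic limit of T. -/
def IsAsymptoticLimit {H : Type*} [NormedAddCommGroup H] [InnerProductSpace ℂ H]
    (L : BoundedContinuousFunction ℕ ℂ →ₗ[ℂ] ℂ) (T A : H →L[ℂ] H) : Prop :=
  ∀ (x y : H) (u : BoundedContinuousFunction ℕ ℂ),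
    (∀ n : ℕ, u n = inner ℂ ((T ^ n) x) ((T ^ n) y)) → inner ℂ (A x) y = L u

theorem result {H : Type*} [NormedAddCommGroup H] [InnerProductSpace ℂ H] [CompleteSpace H]
    (hH : ¬ FiniteDimensional ℂ H)
    (L : BoundedContinuousFunction ℕ ℂ →ₗ[ℂ] ℂ) (hL : IsBanachLimit L)
    (T : H →L[ℂ] H) (hT : ∃ M : ℝ, ∀ n : ℕ, ‖T ^ n‖ ≤ M)
    (A : H →L[ℂ] H) (hA : IsAsymptoticLimit L T A) :
    ¬ (IsCompactOperator A ∧ Function.Injective A) :=
  Pool.Agent.Lib.MP_f651fd_an.main hH L hL.1 hL.2.1 hL.2.2 T hT A hA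

end Pool.Agent.Variants.MP_f651fd_an.NoInjectiveCompact
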